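import Pool.Agent.Helper73.XD.X2

set_option autoImplicit false

/-! # The Dirichlet series -/

namespace H73.XD

open Complex MeasureTheory Filter Topology Set MatrixGroups

/-- The entire function `L(s, Δ)`. -/
noncomputable def Ld (s : ℂ) : ℂ := Lam s * ((2 * Real.pi : ℝ) : ℂ) ^ s * (Gamma s)⁻¹

lemma twopi_ne : ((2 * Real.pi : ℝ) : ℂ) ≠ 0 := by
  have : (2 * Real.pi : ℝ) ≠ 0 := by positivity
  exact_mod_cast this

lemma Ld_differentiable : Differentiable ℂ Ld := by
  unfold Ld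
  refine (Lam_differentiable.mul ?_).mul differentiable_one_div_Gamma
  exact fun s => (differentiableAt_id).const_cpow (Or.inl twopi_ne)

lemma Lam_eq {s : ℂ} (hs : Gamma s ≠ 0) :
    Lam s = ((2 * Real.pi : ℝ) : ℂ) ^ (-s) * Gamma s * Ld s := by
  unfold Ld
  rw [cpow_neg]
  have h := (cpow_ne_zero_iff (y := s)).mpr (Or.inl twopi_ne)
  field_simp

/-- The coefficients. -/
noncomputable def cf (n : ℕ) : ℂ := (UpperHalfPlane.qExpansion 1 ModularForm.discriminant).coeff n

lemma cf_one : cf 1 = 1 := ModularForm.discriminant_qExpansion_coeff_one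

lemma hasSum_Ld {s : ℂ} (hs : 7 < s.re) : HasSum (fun n : ℕ => cf n / (n : ℂ) ^ s) (Ld s) := by
  have h := CuspForm.hasSum_L (Γ := 𝒮ℒ) (k := 12) (s := s) (by norm_num) CuspForm.discriminant
    (by push_cast; linarith)
  rw [Subgroup.strictWidthInfty_SL2Z] at h
  have e1 : ((1 : ℝ) : ℂ) ^ (-s) * ModularForm.L (Γ := 𝒮ℒ) (k := 12) (by norm_num) CuspForm.discriminant s = Ld s := by
    rw [ofReal_one, one_cpow, one_mul]
    unfold ModularForm.L Ld
    rw [CuspForm.Λ_eq_mellin, ← mellin_eq_LT]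
    have e2 : mellin (fun t : ℝ => CuspForm.discriminant (UpperHalfPlane.ofComplex (I * t))) s =
        mellin (fun y : ℝ => ((delta y : ℝ) : ℂ)) s := by
      unfold mellin
      refine setIntegral_congr_fun measurableSet_Ioi fun y hy => ?_
      simp only [CuspForm.coe_discriminant]
      rw [delta_eq hy]
    rw [e2, Gammaℂ_def]
    have e3 : Gamma s ≠ 0 := Gamma_ne_zero_of_re_pos (by linarith)
    have h := (cpow_ne_zero_iff (y := s)).mpr (Or.inl twopi_ne)
    rw [cpow_neg]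
    push_cast at h ⊢
    field_simp
  rw [e1] at h
  exact h

lemma cf_bound : ∃ C : ℝ, 0 ≤ C ∧ ∀ s : ℂ, 8 ≤ s.re → ‖Ld s - 1‖ ≤ C * (2 : ℝ) ^ (-s.re) := by
  have h8 := (hasSum_Ld (s := 8) (by norm_num)).summable.norm
  refine ⟨(∑' n : ℕ, ‖cf n / (n : ℂ) ^ (8 : ℂ)‖) * 2 ^ (8 : ℝ), by positivity, fun s hs => ?_⟩
  have hsum := hasSum_Ld (s := s) (by linarith)
  have h1 : HasSum (fun n : ℕ => if n = 1 then (1 : ℂ) else 0) 1 := by
    have := hasSum_ite_eq (1 : ℕ) (1 : ℂ)
    exact this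
  have h2 := hsum.sub h1
  rw [← h2.tsum_eq]
  have h3 : HasSum (fun n : ℕ => ‖cf n / (n : ℂ) ^ (8 : ℂ)‖ * (2 : ℝ) ^ (8 - s.re))
      ((∑' n : ℕ, ‖cf n / (n : ℂ) ^ (8 : ℂ)‖) * (2 : ℝ) ^ (8 - s.re)) := h8.hasSum.mul_right _
  have h4 := tsum_of_norm_bounded h3 (f := fun n : ℕ => cf n / (n : ℂ) ^ s - if n = 1 then (1 : ℂ) else 0) ?_
  · refine h4.trans (le_of_eq ?_)
    rw [mul_assoc, ← Real.rpow_add (by norm_num)]
    congr 2
  · intro n
    rcases Nat.lt_or_ge n 2 with hn | hn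
    · interval_cases n
      · have hs0 : s ≠ 0 := by
          intro h
          rw [h] at hs
          simp at hs
          linarith
        simp [zero_cpow hs0]
      · simp [cf_one]
        positivity
    · have hn1 : n ≠ 1 := by omega
      rw [if_neg hn1, sub_zero, norm_div, norm_div, norm_natCast_cpow_of_pos (by omega),
        norm_natCast_cpow_of_pos (by omega)]
      have hnr : (2 : ℝ) ≤ n := by exact_mod_cast hn
      have hn0 : (0 : ℝ) < n := by linarith
      have e1 : (n : ℝ) ^ s.re = (n : ℝ) ^ (8 : ℂ).re * (n : ℝ) ^ (s.re - 8) := by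
        rw [← Real.rpow_add hn0]
        congr 1
        simp
      rw [e1, ← div_div]
      have e2 : (2 : ℝ) ^ (s.re - 8) ≤ (n : ℝ) ^ (s.re - 8) :=
        Real.rpow_le_rpow (by norm_num) hnr (by linarith)
      have e3 : (2 : ℝ) ^ (8 - s.re) = ((2 : ℝ) ^ (s.re - 8))⁻¹ := by
        rw [← Real.rpow_neg (by norm_num)]
        congr 1
        ring
      rw [e3, ← div_eq_mul_inv]
      refine div_le_div_of_nonneg_left (by positivity) (by positivity) e2

end H73.XD
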