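import Mathlib

set_option autoImplicit false

/-! # The discriminant on the imaginary axis and its Mellin transform -/

namespace H73.XD

open Complex MeasureTheory Filter Topology Set

/-- `Δ(i y) = e^(-2πy) ∏_{n ≥ 1} (1 - e^(-2πny))^24`. -/
noncomputable def delta (y : ℝ) : ℝ :=
  Real.exp (-2 * Real.pi * y) * ∏' n : ℕ, (1 - Real.exp (-2 * Real.pi * ((n : ℝ) + 1) * y)) ^ 24

/-- The kernel `Φ(u) = e^(6u) Δ(i e^u)`. -/
noncomputable def Phi (u : ℝ) : ℝ := Real.exp (6 * u) * delta (Real.exp u)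

lemma fac_mem {y : ℝ} (hy : 0 < y) (n : ℕ) :
    0 ≤ (1 - Real.exp (-2 * Real.pi * ((n : ℝ) + 1) * y)) ^ 24 ∧
      (1 - Real.exp (-2 * Real.pi * ((n : ℝ) + 1) * y)) ^ 24 ≤ 1 := by
  have h1 : Real.exp (-2 * Real.pi * ((n : ℝ) + 1) * y) ≤ 1 := by
    rw [Real.exp_le_one_iff]
    have : 0 ≤ Real.pi * ((n : ℝ) + 1) * y := by positivity
    nlinarith
  have h2 := Real.exp_pos (-2 * Real.pi * ((n : ℝ) + 1) * y)
  exact ⟨by positivity, pow_le_one₀ (by linarith) (by linarith)⟩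

lemma prod_mem {y : ℝ} (hy : 0 < y) :
    0 ≤ ∏' n : ℕ, (1 - Real.exp (-2 * Real.pi * ((n : ℝ) + 1) * y)) ^ 24 ∧
      ∏' n : ℕ, (1 - Real.exp (-2 * Real.pi * ((n : ℝ) + 1) * y)) ^ 24 ≤ 1 := by
  by_cases h : Multipliable fun n : ℕ => (1 - Real.exp (-2 * Real.pi * ((n : ℝ) + 1) * y)) ^ 24
  · have ht := h.hasProd.tendsto_prod_nat
    refine ⟨ge_of_tendsto' ht fun n => Finset.prod_nonneg fun i _ => (fac_mem hy i).1,
      le_of_tendsto' ht fun n => Finset.prod_le_one (fun i _ => (fac_mem hy i).1)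
        fun i _ => (fac_mem hy i).2⟩
  · rw [tprod_eq_one_of_not_multipliable h]
    norm_num

lemma delta_nonneg {y : ℝ} (hy : 0 < y) : 0 ≤ delta y :=
  mul_nonneg (Real.exp_pos _).le (prod_mem hy).1

lemma delta_le {y : ℝ} (hy : 0 < y) : delta y ≤ Real.exp (-2 * Real.pi * y) :=
  mul_le_of_le_one_right (Real.exp_pos _).le (prod_mem hy).2

lemma delta_eq {y : ℝ} (hy : 0 < y) :
    ((delta y : ℝ) : ℂ) = ModularForm.discriminant (UpperHalfPlane.ofComplex (I * y)) := by
  have him : 0 < (I * (y : ℂ)).im := by simpa using hy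
  rw [ModularForm.discriminant_eq_q_prod, UpperHalfPlane.ofComplex_apply_of_im_pos him]
  unfold delta
  rw [ofReal_mul]
  have hmap : ((∏' n : ℕ, (1 - Real.exp (-2 * Real.pi * ((n : ℝ) + 1) * y)) ^ 24 : ℝ) : ℂ) =
      ∏' n : ℕ, (((1 - Real.exp (-2 * Real.pi * ((n : ℝ) + 1) * y)) ^ 24 : ℝ) : ℂ) :=
    Function.LeftInverse.map_tprod
      (f := fun n : ℕ => (1 - Real.exp (-2 * Real.pi * ((n : ℝ) + 1) * y)) ^ 24)
      (g := (Complex.ofRealHom : ℝ →* ℂ)) (g' := fun z : ℂ => z.re)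
      Complex.continuous_ofReal Complex.continuous_re (fun x => by simp)
  rw [hmap]
  have e1 : (-2 * (Real.pi : ℂ) * y) = 2 * Real.pi * I * (I * y) / 1 := by
    ring_nf
    rw [I_sq]
    ring
  congr 1
  · simp only [Function.Periodic.qParam, ofReal_exp, ofReal_mul, ofReal_neg,
      ofReal_ofNat, ofReal_one]
    rw [e1]
  · refine tprod_congr fun n => ?_
    rw [ModularForm.eta_q_eq_cexp]
    push_cast
    congr 3
    ring_nf
    rw [I_sq]
    ring

lemma delta_inv {y : ℝ} (hy : 0 < y) : delta (1 / y) = y ^ 12 * delta y := by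
  have h0 : 0 < 1 / y := by positivity
  have him : 0 < (I * (y : ℂ)).im := by simpa using hy
  have him' : 0 < (I * ((1 / y : ℝ) : ℂ)).im := by simpa using hy
  have h := congrFun ModularForm.discriminant_S_invariant (UpperHalfPlane.ofComplex (I * y))
  rw [ModularForm.SL_slash_apply, UpperHalfPlane.modular_S_smul,
    UpperHalfPlane.ofComplex_apply_of_im_pos him] at h
  have e1 : (UpperHalfPlane.mk (-((⟨I * (y : ℂ), him⟩ : UpperHalfPlane) : ℂ))⁻¹
      (UpperHalfPlane.im_inv_neg_coe_pos _) : UpperHalfPlane) =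
      UpperHalfPlane.ofComplex (I * ((1 / y : ℝ) : ℂ)) := by
    rw [UpperHalfPlane.ofComplex_apply_of_im_pos him']
    apply UpperHalfPlane.ext
    have hyc : (y : ℂ) ≠ 0 := by exact_mod_cast hy.ne'
    simp only
    push_cast
    field_simp
    rw [I_sq]
  rw [e1] at h
  rw [← delta_eq h0] at h
  have h2 := delta_eq hy
  rw [UpperHalfPlane.ofComplex_apply_of_im_pos him] at h2
  rw [← h2] at h
  have e2 : UpperHalfPlane.denom (Matrix.SpecialLinearGroup.toGL
      ((Matrix.SpecialLinearGroup.map (Int.castRingHom ℝ)) ModularGroup.S))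
      ((⟨I * (y : ℂ), him⟩ : UpperHalfPlane) : ℂ) = I * y := by
    simp [UpperHalfPlane.denom, ModularGroup.S]
  rw [e2] at h
  have hyc : (y : ℂ) ≠ 0 := by exact_mod_cast hy.ne'
  have e3 : (I * (y : ℂ)) ^ (-12 : ℤ) = ((y : ℂ) ^ 12)⁻¹ := by
    rw [zpow_neg, show (12 : ℤ) = ((12 : ℕ) : ℤ) from rfl, zpow_natCast, mul_pow,
      show (12 : ℕ) = 4 * 3 from rfl, pow_mul I, I_pow_four, one_pow, one_mul]
  rw [e3] at h
  have h4 : ((delta (1 / y) : ℝ) : ℂ) = ((y ^ 12 * delta y : ℝ) : ℂ) := by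
    push_cast
    rw [← h]
    field_simp
  exact_mod_cast h4

lemma delta_pos {y : ℝ} (hy : 0 < y) : 0 < delta y := by
  refine lt_of_le_of_ne (delta_nonneg hy) (fun h => ?_)
  have h1 := delta_eq hy
  rw [← h, ofReal_zero] at h1
  exact ModularForm.discriminant_ne_zero _ h1.symm

lemma delta_cont : ContinuousOn delta (Ioi 0) := by
  have h1 : ContinuousOn (fun y : ℝ => ((ModularForm.eta (I * (y : ℂ))) ^ 24).re) (Ioi 0) := by
    intro y hy
    have him : 0 < (I * (y : ℂ)).im := by simpa using hy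
    have h2 : ContinuousAt ModularForm.eta (I * (y : ℂ)) :=
      (ModularForm.differentiableAt_eta_of_mem_upperHalfPlaneSet him).continuousAt
    have h3 : ContinuousAt (fun y : ℝ => I * (y : ℂ)) y := by fun_prop
    have h4 : ContinuousAt (fun y : ℝ => ModularForm.eta (I * (y : ℂ))) y :=
      ContinuousAt.comp (g := ModularForm.eta) (f := fun y : ℝ => I * (y : ℂ)) h2 h3
    exact (Complex.continuous_re.continuousAt.comp (h4.pow 24)).continuousWithinAt
  refine h1.congr fun y hy => ?_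
  have him : 0 < (I * (y : ℂ)).im := by simpa using hy
  have h5 := delta_eq hy
  rw [UpperHalfPlane.ofComplex_apply_of_im_pos him] at h5
  have h6 := congrArg Complex.re h5
  rw [ofReal_re] at h6
  exact h6

lemma Phi_cont : Continuous Phi := by
  unfold Phi
  refine Continuous.mul (by fun_prop) ?_
  exact delta_cont.comp_continuous Real.continuous_exp (fun u => Real.exp_pos u)

lemma Phi_pos (u : ℝ) : 0 < Phi u := mul_pos (Real.exp_pos _) (delta_pos (Real.exp_pos _))

lemma Phi_even (u : ℝ) : Phi (-u) = Phi u := by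
  unfold Phi
  have h := delta_inv (Real.exp_pos u)
  rw [one_div, ← Real.exp_neg] at h
  rw [h, ← Real.exp_nat_mul, ← mul_assoc, ← Real.exp_add]
  congr 2
  push_cast
  ring

lemma Phi_le (u : ℝ) : Phi u ≤ Real.exp (6 * u) * Real.exp (-2 * Real.pi * Real.exp u) :=
  mul_le_mul_of_nonneg_left (delta_le (Real.exp_pos _)) (Real.exp_pos _).le

lemma Phi_le_abs (u : ℝ) :
    Phi u ≤ Real.exp (6 * |u|) * Real.exp (-2 * Real.pi * Real.exp |u|) := by
  rcases abs_cases u with ⟨h, _⟩ | ⟨h, _⟩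
  · rw [h]
    exact Phi_le u
  · rw [h, ← Phi_even]
    exact Phi_le (-u)

end H73.XD
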